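import Pool.Agent.W2helper22.ET.Stm

set_option autoImplicit false

/-!
# Project ETS: Exact Triangle restricted to a pattern, sparse patterns included

THEOREM (`MP_62fbe0_lc`, hard). Let `0 < θ` and let `G n` be graphs on `n` vertices with
`n ^ (θ + o(1))` triangles, every edge in a triangle (computable in time `n ^ σ`, `σ < 3`, with
triangles listed in time `n ^ (θ + o(1))`). Then the exponent of Exact Triangle restricted to the
subgraphs of `G n` is exactly `θ`: time `n ^ τ` is enough for every `τ > θ`, and time `n ^ τ` for a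
`τ < θ` refutes the Exact Triangle hypothesis. (`Pool.Agent.W2helper22.ET.Stm` is the case `2 < θ`.)

Differences to `Pool.Agent.W2helper22.ET.Stm`: the instance is pulled back along the LIST of the
edges of the pattern (so a copy costs the number of the edges and not `n ^ 2`); the shapes may have
sides `1` (then the class of triangles may be concentrated at one vertex), the probability of a hit
is only `≥ 1 / 125`, and there are `400` tries; if there are nearly as many edges as triangles, then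
no algorithm is faster because it has to read the weights of all edges.
-/

namespace Pool.Agent.W2helper22.ETS

open Pool.Agent.W2helper22.SM
open Pool.Agent.W2helper22.ET (Instance Algo Decides ETFast PatFast tri start Computes Lists
  Instance.enc Instance.Yes kk nU patE roleE labE setLab BigW3 Hit)

/-- The number of the ordered pairs of adjacent vertices. -/
noncomputable def nE {n : ℕ} (G : SimpleGraph (Fin n)) : ℕ :=
  Nat.card {p : Fin n × Fin n // G.Adj p.1 p.2}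

/-! ## Shapes, blocks, labels (with `400` tries) -/

def nG (k n : ℕ) : ℕ := bits n ^ 2 * nU k n * 400
def nL (k n : ℕ) : ℕ := nG k n * cK n

def s1 (k n h : ℕ) : ℕ := h / 400 / nU k n / bits n
def s2 (k n h : ℕ) : ℕ := h / 400 / nU k n % bits n
def s3 (k n h : ℕ) : ℕ := k - s1 k n h - s2 k n h
def b2 (k n h : ℕ) : ℕ := n / 2 ^ s2 k n h + 1
def b3 (k n h : ℕ) : ℕ := n / 2 ^ s3 k n h + 1
def i1 (k n h : ℕ) : ℕ := h / 400 % nU k n / b3 k n h / b2 k n h
def i2 (k n h : ℕ) : ℕ := h / 400 % nU k n / b3 k n h % b2 k n h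
def i3 (k n h : ℕ) : ℕ := h / 400 % nU k n % b3 k n h

/-- The label of the vertex `x` of the pattern in the group `h`: a vertex of the instance (or `n`,
which means that `x` is not used). -/
def lab (k n : ℕ) (ω' : ℕ → ℕ → ℕ) (h x : ℕ) : ℕ :=
  if ω' (2 * x + 1) (2 * h) % 4 = 0 then
    i1 k n h * 2 ^ s1 k n h + ω' (2 * x + 1) (2 * h + 1) % 2 ^ s1 k n h
  else if ω' (2 * x + 1) (2 * h) % 4 = 1 then
    i2 k n h * 2 ^ s2 k n h + ω' (2 * x + 1) (2 * h + 1) % 2 ^ s2 k n h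
  else if ω' (2 * x + 1) (2 * h) % 4 = 2 then
    i3 k n h * 2 ^ s3 k n h + ω' (2 * x + 1) (2 * h + 1) % 2 ^ s3 k n h
  else n

open Classical in
/-- The instance `X` pulled back to the pattern `G` by the labels; the weights of the pairs which
are no edges of the pattern are `-n ^ 300` (coded by `0`). -/
noncomputable def pull {n : ℕ} (X : Instance n) (G : SimpleGraph (Fin n)) (l : ℕ → ℕ) :
    Instance n where
  E :=
    { Adj := fun x y => G.Adj x y ∧ ∃ (hx : l x < n) (hy : l y < n),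
        X.E.Adj ⟨l x, hx⟩ ⟨l y, hy⟩
      symm := ⟨fun _ _ h => ⟨h.1.symm, h.2.2.1, h.2.1, h.2.2.2.symm⟩⟩
      loopless := ⟨fun _ h => G.loopless.irrefl _ h.1⟩ }
  w := fun x y => if h : G.Adj x y ∧ l x < n ∧ l y < n then X.w ⟨l x, h.2.1⟩ ⟨l y, h.2.2⟩
    else -(n : ℤ) ^ 300
  wsymm := by
    intro x y
    by_cases h : G.Adj x y ∧ l x < n ∧ l y < n
    · have h' : G.Adj y x ∧ l y < n ∧ l x < n := ⟨h.1.symm, h.2.2, h.2.1⟩
      rw [dif_pos h, dif_pos h', X.wsymm]
    · have h' : ¬ (G.Adj y x ∧ l y < n ∧ l x < n) := fun h' => h ⟨h'.1.symm, h'.2.2, h'.2.1⟩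
      rw [dif_neg h, dif_neg h']
  bound := by
    intro x y
    by_cases h : G.Adj x y ∧ l x < n ∧ l y < n
    · rw [dif_pos h]
      exact X.bound _ _
    · rw [dif_neg h, abs_neg, abs_of_nonneg (by positivity)]

/-! ## The reduction

Registers as in `Pool.Agent.W2helper22.ET.Stm`; moreover register `26`: the length of the list of
the ordered pairs of adjacent vertices of the pattern (rows `0` and `1` of the array `6`), register
`10`: the place in the list. Labels (row `0` of the array `5`) are computed for the vertices of the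
list only. -/

/-- The list of the edges. -/
def listP : Prog :=
  .seq (.assign 26 (.lit 0))
    (forR 12 (.reg 0) (forR 13 (.reg 0)
      (.ite (.eq patE (.lit 1))
        (.seq (.store 6 (.lit 0) (.reg 26) (.reg 12))
          (.seq (.store 6 (.lit 1) (.reg 26) (.reg 13))
            (.assign 26 (eAdd (.reg 26) (.lit 1))))) .skip)))

/-- Build the input of the copy `r_1 = r_8 * K + r_9`, run it, count its answer. -/
def copyP (P : Algo) : Prog :=
  .seq (.assign 1 (eAdd (eMul (.reg 8) (.reg 5)) (.reg 9)))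
    (.seq (forR 10 (.reg 26)
        (.seq (.assign 12 (.get 6 (.lit 0) (.reg 10)))
        (.seq (.assign 13 (.get 6 (.lit 1) (.reg 10)))
        (.seq (.store 11 (.reg 12) (eAdd (eMul (.reg 13) (.reg 2)) (.reg 1))
            (.get 0 (.get 5 (.lit 0) (.reg 12)) (.get 5 (.lit 0) (.reg 13))))
          (.store 12 (.reg 12) (eAdd (eMul (.reg 13) (.reg 2)) (.reg 1))
            (.get 1 (.get 5 (.lit 0) (.reg 12)) (.get 5 (.lit 0) (.reg 13))))))))
      (.seq (.store 10 (.lit 0) (.reg 1) (.reg 0))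
        (.seq P.prog.sim
          (.assign 23 (eAdd (.reg 23)
            (eSub (.lit 1) (eSub (.lit 1) (.get 10 (.lit 1) (.reg 1)))))))))

def groupP (P : Algo) : Prog :=
  .seq (.assign 17 (eMod (eDiv (.reg 8) (.lit 400)) (.reg 6)))
  (.seq (.assign 14 (eDiv (eDiv (eDiv (.reg 8) (.lit 400)) (.reg 6)) (eAdd (.reg 3) (.lit 1))))
  (.seq (.assign 15 (eMod (eDiv (eDiv (.reg 8) (.lit 400)) (.reg 6)) (eAdd (.reg 3) (.lit 1))))
  (.seq (.assign 16 (eSub (eSub (.reg 4) (.reg 14)) (.reg 15)))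
  (.seq (.assign 18 (eAdd (eDiv (.reg 0) (eShl (.lit 1) (.reg 16))) (.lit 1)))
  (.seq (.assign 19 (eAdd (eDiv (.reg 0) (eShl (.lit 1) (.reg 15))) (.lit 1)))
  (.seq (.assign 22 (eMod (.reg 17) (.reg 18)))
  (.seq (.assign 21 (eMod (eDiv (.reg 17) (.reg 18)) (.reg 19)))
  (.seq (.assign 20 (eDiv (eDiv (.reg 17) (.reg 18)) (.reg 19)))
  (.seq (forR 10 (.reg 26) (.seq (.assign 12 (.get 6 (.lit 0) (.reg 10))) setLab))
  (.seq (.assign 23 (.lit 0))
  (.seq (forR 9 (.reg 5) (copyP P))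
    (.ite (.lt (.reg 5) (eMul (.lit 2) (.reg 23))) (.assign 24 (.lit 1)) .skip))))))))))))

def redP (P g : Algo) (p q : ℕ) : Prog :=
  .seq logP
  (.seq (.assign 4 (eDiv (eMul (.lit p) (.reg 3)) (.lit q)))
  (.seq (.assign 5 (eAdd (eMul (.lit 100) (eAdd (.reg 3) (.lit 1))) (.lit 1)))
  (.seq (.assign 6 (eMul (.lit 8) (eAdd (eDiv (eMul (eMul (.reg 0) (.reg 0)) (.reg 0))
    (eShl (.lit 1) (.reg 4))) (.lit 1))))
  (.seq (.assign 7 (eMul (eMul (eMul (eAdd (.reg 3) (.lit 1)) (eAdd (.reg 3) (.lit 1))) (.reg 6))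
    (.lit 400)))
  (.seq (.assign 1 (eMul (.reg 7) (.reg 5)))
  (.seq (.assign 2 (eAdd (.reg 1) (.lit 1)))
  (.seq (.store 10 (.lit 0) (.reg 1) (.reg 0))
  (.seq g.prog.sim
  (.seq listP
  (.seq (.assign 24 (.lit 0))
  (.seq (forR 8 (.reg 7) (groupP P))
    (.assign 1 (.reg 24)))))))))))))

/-- The reduction from Exact Triangle to Exact Triangle restricted to a pattern: `P` solves the
restricted problem, `g` computes the pattern. -/
def red (P g : Algo) (p q : ℕ) : Algo := ⟨redP P g p q, P.wd + g.wd + 1000⟩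

/-- The numbers which occur are words. -/
def BigW5 (P g : Algo) (p q n W' : ℕ) : Prop :=
  1 ≤ n ∧ 0 < q ∧ p ≤ 3 * q ∧ 4 * n ^ 300 ≤ W' ∧
    1000 * (P.W n + g.W n + P.prog.mx + g.prog.mx + p + q + 1000) * (n + 1) ^ 8 *
      (nL (kk p q n) n + 2) ≤ W'

/-- PIECE REDS (as `P_RED` of `Pool.Agent.W2helper22.ET.Stm`). -/
def P_REDS : Prop :=
  ∀ (P g : Algo) (p q n k W' : ℕ) (ω' : ℕ → ℕ → ℕ) (ω : ℕ → ℕ → ℕ → ℕ) (X : Instance n)
    (G : SimpleGraph (Fin n)) (μ : ℕ → Mem) (t : ℕ → ℕ), k = kk p q n → BigW5 P g p q n W' →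
    (∀ i j, ω' i j < 2 ^ bits n) →
    (∀ idx < nL k n, ∀ i < P.W n, ∀ j < P.W n, ω' (2 * i) (j * (nL k n + 1) + idx) = ω idx i j) →
    (∀ i < g.W n, ∀ j < g.W n, ω' (2 * i) (j * (nL k n + 1) + nL k n) = ω (nL k n) i j) →
    Runs (g.W n) (ω (nL k n)) g.prog (start n) (μ (nL k n)) (t (nL k n)) →
    (∀ i j : Fin n, (μ (nL k n)).a 2 i j ≠ 0 ↔ G.Adj i j) →
    (∀ h < nG k n, ∀ j < cK n, Runs (P.W n) (ω (h * cK n + j)) P.prog
      (pull X G (lab k n ω' h)).enc (μ (h * cK n + j)) (t (h * cK n + j))) →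
    Tr W' ω' (redP P g p q) X.enc
      (2000 * (n + 1) ^ 2 + 2000 * (nL k n + 1) * (nE G + 1) +
        10 * ∑ idx ∈ Finset.range (nL k n + 1), t idx)
      (fun m' => (m'.v 1 ≠ 0 ↔ ∃ h < nG k n,
        cK n < 2 * ((Finset.range (cK n)).filter (fun j => (μ (h * cK n + j)).v 1 ≠ 0)).card))

/-! ## Covering -/

/-- The conditions for the second moment; those for shapes of size `1` are void. -/
def SpreadS {n : ℕ} (T : Finset (Fin n × Fin n × Fin n)) (s1 s2 s3 : ℕ) : Prop :=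
  T.Nonempty ∧ s1 < bits n ∧ s2 < bits n ∧ s3 < bits n ∧
  (∀ p ∈ T, p.1 ≠ p.2.1 ∧ p.2.1 ≠ p.2.2 ∧ p.1 ≠ p.2.2) ∧
  (0 < s1 + s2 + s3 → 512 * 2 ^ (s1 + s2 + s3) ≤ T.card) ∧
  (0 < s1 + s2 → ∀ x y,
    512 * (T.filter fun p => p.1 = x ∧ p.2.1 = y).card * 2 ^ (s1 + s2) ≤ T.card) ∧
  (0 < s1 + s3 → ∀ x z,
    512 * (T.filter fun p => p.1 = x ∧ p.2.2 = z).card * 2 ^ (s1 + s3) ≤ T.card) ∧
  (0 < s2 + s3 → ∀ y z,
    512 * (T.filter fun p => p.2.1 = y ∧ p.2.2 = z).card * 2 ^ (s2 + s3) ≤ T.card) ∧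
  (0 < s1 → ∀ x, 512 * (T.filter fun p => p.1 = x).card * 2 ^ s1 ≤ T.card) ∧
  (0 < s2 → ∀ y, 512 * (T.filter fun p => p.2.1 = y).card * 2 ^ s2 ≤ T.card) ∧
  (0 < s3 → ∀ z, 512 * (T.filter fun p => p.2.2 = z).card * 2 ^ s3 ≤ T.card)

/-- PIECE MOMS (second moment, as `P_MOM` of `Pool.Agent.W2helper22.ET.Stm`, proved in
`Pool.Agent.W2helper77.ET.Mom`). With `p_i = 1 / (4 * 2 ^ s_i)` and `Z` the number of the `p ∈ T`
with the given roles and labels, `E Z = |T| p₁ p₂ p₃`, and the pairs `(p, p')` which share exactly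
the coordinates in `I` contribute to `E Z ^ 2` at most
`|T| D_I (p₁ p₂ p₃) ^ 2 / p_I ≤ (E Z) ^ 2 4 ^ |I| (D_I 2 ^ s_I / |T|) ≤ (E Z) ^ 2 4 ^ |I|`
(`D_I ≤ |T|` if `s_I = 0`). So `E Z ^ 2 ≤ (1 + 4) ^ 3 (E Z) ^ 2`, and
`P (Z > 0) ≥ (E Z) ^ 2 / E Z ^ 2 ≥ 1 / 125` by the Cauchy-Schwarz inequality. -/
def P_MOMS : Prop :=
  ∀ (n : ℕ) (T : Finset (Fin n × Fin n × Fin n)) (s1 s2 s3 : ℕ), 2 ≤ n → SpreadS T s1 s2 s3 →
    ∀ a < 2 ^ s1, ∀ b < 2 ^ s2, ∀ c < 2 ^ s3, 1 / 125 ≤ prob (Hit T s1 s2 s3 a b c)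

/-- PIECE CLSS (a class of triangles and a shape; greedy choice of the shape, no linear
programming). Let `T₀` be the set of all ordered triangles, `t = |T₀|`. Sort them by the dyadic
levels of the six degrees `D_I` (numbers of triangles in `T₀` with given coordinates in `I`,
`|I| = 1, 2`); the largest class `T` has `t ≤ B |T|`, `B = 8 bits ^ 6` (or a similar number). Let
`D_I` be the upper end of the level, `A_I = |T| / D_I` (real numbers). Then
(a) the degrees in `T` are at most `D_I`, so `A_I ≤ |π_I T|`, and `|π_I T| ≤ 2 B A_I`;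
(b) `A_12 A_13 ≥ A_1 |T| / (64 B ^ 3)`: at least `A_1 / 2` of the vertices `x ∈ π_1 T` have degree
`≥ |T| / (2 |π_1 T|)` in `T`, this degree is at most `a(x) b(x)` (`a`, `b`: degrees in `π_12 T`,
`π_13 T`), and `∑ a ∑ b ≥ (∑ √(a b)) ^ 2`;
(c) `A_12 / A_1 ≤ 4 B ^ 2 A_2` (`|π_12 T| ≤ |π_1 T| |π_2 T|`), `|T| / A_12 ≤ 4 B ^ 2 A_3`,
`|T| / A_1 ≤ 4 B ^ 2 A_23`.
Put `m_1 = A_1`, `m_2 = A_12 / A_1`, `m_3 = |T| / A_12`. By (b), (c) the product `m_I` of the `m_i`,
`i ∈ I`, is at most `64 B ^ 3 A_I` for all `I`. Take `s_i = max (0, ⌊log₂ m_i - 15 - 3 log₂ B⌋)`: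
if `J = {i ∈ I, s_i > 0}` is not empty, then `512 * 2 ^ s_I = 512 * 2 ^ s_J ≤ A_J`, and the degree
of `I` is at most the degree of `J`. The sum of the `s_i` is at least
`log₂ |T| - 48 - 9 log₂ B ≥ k`; make some `s_i` smaller until it is `k`. -/
def P_CLSS : Prop :=
  ∀ (n k : ℕ) (G : SimpleGraph (Fin n)), 2 ≤ n → 2 ^ (k + 300) * bits n ^ 100 ≤ tri G →
    ∃ (T : Finset (Fin n × Fin n × Fin n)) (s1 s2 s3 : ℕ), s1 + s2 + s3 = k ∧
      SpreadS T s1 s2 s3 ∧
      ∀ p ∈ T, G.Adj p.1 p.2.1 ∧ G.Adj p.2.1 p.2.2 ∧ G.Adj p.1 p.2.2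

/-! ## Reading the input -/

/-- PIECE READ. If every edge of `G` is in a triangle, then an algorithm for the subgraphs of `G`
needs time `≥ nE G / 6`. Proof: let `Y` be the instance with all edges of `G` and all weights `1`
(no triangle of weight zero), and for an edge `e = {x, y}` let `Y_e` be the same with weight `-2` of
`e` (a triangle of weight zero). With probability `≥ 1 / 3` the answers to both are right, so
different, and so the run on `Y` reads the entry `(x, y)` or `(y, x)` of the array `1`. The sum over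
`e` of the probabilities is at most the running time. Needed: if a run of a program reads no entry
in a set `D` before writing it, then the run with other contents of `D` has the same registers and
time. (Induction on `Runs`: there is a finite set `R` of at most `c` entries such that for all
memories which agree with `m` outside of a set `D` disjoint from `R` the run has the same time, ends
with the same registers and agrees outside of `D`.) -/
def P_READ : Prop :=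
  ∀ (A : Algo) (n : ℕ) (G : SimpleGraph (Fin n)) (T : ℝ), 2 ≤ n →
    (∀ X : Instance n, X.E ≤ G → Decides A X T) →
    (∀ x y, G.Adj x y → ∃ z, G.Adj y z ∧ G.Adj x z) → (nE G : ℝ) ≤ 12 * T

/-! ## Asymptotics and the upper bound -/

/-- PIECE ASYS (as `P_ASY`, proved in `Pool.Agent.W2helper71.ET.Asy`). Choose a rational number
`p / q` between `τ` (and `0`) and `θ`; `e n` is the number of the edges. -/
def P_ASYS : Prop :=
  ∀ (P g : Algo) (θ τ σ : ℝ) (t e : ℕ → ℕ), 0 < θ → τ < θ → σ < 3 →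
    (∀ ε : ℝ, 0 < ε → ∀ᶠ n : ℕ in Filter.atTop, (n : ℝ) ^ (θ - ε) ≤ t n) →
    (∀ᶠ n : ℕ in Filter.atTop, (t n : ℝ) ≤ (n : ℝ) ^ 3) →
    (∀ᶠ n : ℕ in Filter.atTop, (e n : ℝ) ≤ 12 * (n : ℝ) ^ τ) →
    ∃ (p q : ℕ) (τ' : ℝ), τ' < 3 ∧ ∀ᶠ n : ℕ in Filter.atTop,
      BigW5 P g p q n (2 ^ ((P.wd + g.wd + 1000) * bits n)) ∧
      2 ^ (kk p q n + 300) * bits n ^ 100 ≤ t n ∧
      (nG (kk p q n) n : ℝ) * (24 / 25 : ℝ) ^ cK n ≤ 1 / 12 ∧
      ((2000 * (n + 1) ^ 2 + 2000 * (nL (kk p q n) n + 1) * (e n + 1) +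
        10 * (nL (kk p q n) n * ⌊(n : ℝ) ^ τ⌋₊ + ⌊(n : ℝ) ^ σ⌋₊) : ℕ) : ℝ) ≤ (n : ℝ) ^ τ'

/-- PIECE UPS (as `P_UP`, proved in `Pool.Agent.W2helper28.ET.Up`, but for all `0 < θ`). -/
def P_UPS : Prop :=
  ∀ (G : (n : ℕ) → SimpleGraph (Fin n)) (θ : ℝ), 0 < θ →
    (∃ g : Algo, ∀ ε : ℝ, 0 < ε → ∀ᶠ n : ℕ in Filter.atTop, Lists g (G n) ((n : ℝ) ^ (θ + ε))) →
    ∀ τ : ℝ, θ < τ → PatFast G τ

end Pool.Agent.W2helper22.ETS
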