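import Pool.Agent.W2helper22.ETS.Stm
import Pool.Agent.W2helper22.ET.Low

set_option autoImplicit false

/-! # The reduction from Exact Triangle to a pattern is right with probability `≥ 2 / 3`
(sparse patterns included) -/

namespace Pool.Agent.W2helper22.ETS

open Pool.Agent.W2helper22.SM Finset
open Pool.Agent.W2helper22.ET (Instance Algo Decides ETFast PatFast tri start Computes Lists
  Instance.enc Instance.Yes kk nU patE roleE labE setLab Hit mul_add_div' mul_add_mod' nU_pos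
  index_lt prob_le_of_forall prob_pi_forall wrd RightRun)

/-! ## Pulling back -/

theorem pull_w {n : ℕ} (X : Instance n) (G : SimpleGraph (Fin n)) (l : ℕ → ℕ) {x y : Fin n}
    (h : G.Adj x y) (hx : l x < n) (hy : l y < n) :
    (pull X G l).w x y = X.w ⟨l x, hx⟩ ⟨l y, hy⟩ := by
  unfold pull
  exact dif_pos (⟨h, hx, hy⟩ : G.Adj x y ∧ l x < n ∧ l y < n)

theorem pull_sound {n : ℕ} (X : Instance n) (G : SimpleGraph (Fin n)) (l : ℕ → ℕ)
    (h : (pull X G l).Yes) : X.Yes := by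
  obtain ⟨x, y, z, hxy, hyz, hxz, hw⟩ := h
  obtain ⟨g1, hx, hy, h1⟩ := hxy
  obtain ⟨g2, hy', hz, h2⟩ := hyz
  obtain ⟨g3, hx', hz', h3⟩ := hxz
  refine ⟨⟨l x, hx⟩, ⟨l y, hy⟩, ⟨l z, hz⟩, h1, h2, h3, ?_⟩
  rw [pull_w X G l g1 hx hy, pull_w X G l g2 hy hz, pull_w X G l g3 hx hz] at hw
  exact hw

theorem pull_hit {n : ℕ} (X : Instance n) (G : SimpleGraph (Fin n)) (l : ℕ → ℕ)
    {i j k x y z : Fin n} (hij : X.E.Adj i j) (hjk : X.E.Adj j k) (hik : X.E.Adj i k)
    (hw : X.w i j + X.w j k + X.w i k = 0) (hxy : G.Adj x y) (hyz : G.Adj y z) (hxz : G.Adj x z)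
    (hx : l x = i) (hy : l y = j) (hz : l z = k) : (pull X G l).Yes := by
  have hx' : l x < n := by rw [hx]; exact i.2
  have hy' : l y < n := by rw [hy]; exact j.2
  have hz' : l z < n := by rw [hz]; exact k.2
  have ei : (⟨l x, hx'⟩ : Fin n) = i := Fin.ext hx
  have ej : (⟨l y, hy'⟩ : Fin n) = j := Fin.ext hy
  have ek : (⟨l z, hz'⟩ : Fin n) = k := Fin.ext hz
  refine ⟨x, y, z, ⟨hxy, hx', hy', ?_⟩, ⟨hyz, hy', hz', ?_⟩, ⟨hxz, hx', hz', ?_⟩, ?_⟩
  · rw [ei, ej]; exact hij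
  · rw [ej, ek]; exact hjk
  · rw [ei, ek]; exact hik
  · rw [pull_w X G l hxy hx' hy', pull_w X G l hyz hy' hz', pull_w X G l hxz hx' hz', ei, ej, ek]
    exact hw

/-! ## Numbers of the groups -/

theorem decode {k n t1 t2 t3 I1 I2 I3 : ℕ} (ht2 : t2 < bits n)
    (hk : t1 + t2 + t3 = k) (hI2 : I2 < n / 2 ^ t2 + 1) (hI3 : I3 < n / 2 ^ t3 + 1)
    (hu : (I1 * (n / 2 ^ t2 + 1) + I2) * (n / 2 ^ t3 + 1) + I3 < nU k n) {pl : ℕ} (hpl : pl < 400)
    {h : ℕ} (hh : h = ((t1 * bits n + t2) * nU k n +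
      ((I1 * (n / 2 ^ t2 + 1) + I2) * (n / 2 ^ t3 + 1) + I3)) * 400 + pl) :
    s1 k n h = t1 ∧ s2 k n h = t2 ∧ s3 k n h = t3 ∧ i1 k n h = I1 ∧ i2 k n h = I2 ∧
      i3 k n h = I3 := by
  have h4 : h / 400 = (t1 * bits n + t2) * nU k n +
      ((I1 * (n / 2 ^ t2 + 1) + I2) * (n / 2 ^ t3 + 1) + I3) := by
    rw [hh]; exact mul_add_div' hpl
  have hU : h / 400 / nU k n = t1 * bits n + t2 := by rw [h4]; exact mul_add_div' hu
  have hV : h / 400 % nU k n = (I1 * (n / 2 ^ t2 + 1) + I2) * (n / 2 ^ t3 + 1) + I3 := by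
    rw [h4]; exact mul_add_mod' hu
  have e1 : s1 k n h = t1 := by unfold s1; rw [hU]; exact mul_add_div' ht2
  have e2 : s2 k n h = t2 := by unfold s2; rw [hU]; exact mul_add_mod' ht2
  have e3 : s3 k n h = t3 := by unfold s3; rw [e1, e2]; omega
  have eb2 : b2 k n h = n / 2 ^ t2 + 1 := by unfold b2; rw [e2]
  have eb3 : b3 k n h = n / 2 ^ t3 + 1 := by unfold b3; rw [e3]
  refine ⟨e1, e2, e3, ?_, ?_, ?_⟩
  · unfold i1; rw [hV, eb3, eb2, mul_add_div' hI3]; exact mul_add_div' hI2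
  · unfold i2; rw [hV, eb3, eb2, mul_add_div' hI3]; exact mul_add_mod' hI2
  · unfold i3; rw [hV, eb3]; exact mul_add_mod' hI3

theorem group_lt {k n t1 t2 u pl : ℕ} (h1 : t1 < bits n) (h2 : t2 < bits n) (hu : u < nU k n)
    (hpl : pl < 400) : ((t1 * bits n + t2) * nU k n + u) * 400 + pl < nG k n := by
  unfold nG
  have e1 : t1 * bits n + t2 + 1 ≤ bits n ^ 2 := by
    rw [pow_two]
    calc t1 * bits n + t2 + 1 ≤ t1 * bits n + bits n := by omega
      _ = (t1 + 1) * bits n := by ring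
      _ ≤ bits n * bits n := Nat.mul_le_mul_right _ h1
  have e2 : (t1 * bits n + t2) * nU k n + u + 1 ≤ bits n ^ 2 * nU k n := by
    calc (t1 * bits n + t2) * nU k n + u + 1 ≤ (t1 * bits n + t2) * nU k n + nU k n := by omega
      _ = (t1 * bits n + t2 + 1) * nU k n := by ring
      _ ≤ _ := Nat.mul_le_mul_right _ e1
  omega

/-! ## Probability -/

/-- The labels of the group with the words `y x = (role word, label word)`. -/
def labF (k n h : ℕ) (y : Fin n → Fin (2 ^ bits n) × Fin (2 ^ bits n)) (x : ℕ) : ℕ :=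
  if hx : x < n then
    if ((y ⟨x, hx⟩).1 : ℕ) % 4 = 0 then
      i1 k n h * 2 ^ s1 k n h + ((y ⟨x, hx⟩).2 : ℕ) % 2 ^ s1 k n h
    else if ((y ⟨x, hx⟩).1 : ℕ) % 4 = 1 then
      i2 k n h * 2 ^ s2 k n h + ((y ⟨x, hx⟩).2 : ℕ) % 2 ^ s2 k n h
    else if ((y ⟨x, hx⟩).1 : ℕ) % 4 = 2 then
      i3 k n h * 2 ^ s3 k n h + ((y ⟨x, hx⟩).2 : ℕ) % 2 ^ s3 k n h
    else n
  else 0

theorem pull_congr {n : ℕ} (X : Instance n) (G : SimpleGraph (Fin n)) (l l' : ℕ → ℕ)
    (h : ∀ x : Fin n, l x = l' x) : pull X G l = pull X G l' := by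
  have h1 : (fun x y : Fin n => G.Adj x y ∧ ∃ (hx : l x < n) (hy : l y < n),
      X.E.Adj ⟨l x, hx⟩ ⟨l y, hy⟩) = fun x y : Fin n => G.Adj x y ∧
      ∃ (hx : l' x < n) (hy : l' y < n), X.E.Adj ⟨l' x, hx⟩ ⟨l' y, hy⟩ := by
    funext x y
    simp only [h x, h y]
  unfold pull
  congr 1
  · apply SimpleGraph.ext
    exact h1
  · funext x y
    by_cases hc : G.Adj x y ∧ l x < n ∧ l y < n
    · have hc' : G.Adj x y ∧ l' x < n ∧ l' y < n := by
        rw [← h x, ← h y]
        exact hc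
      rw [dif_pos hc, dif_pos hc']
      simp only [h x, h y]
    · have hc' : ¬ (G.Adj x y ∧ l' x < n ∧ l' y < n) := by
        rw [← h x, ← h y]
        exact hc
      rw [dif_neg hc, dif_neg hc']

theorem lab_eq {n W' : ℕ} (k : ℕ) (ω' : Tape W' (bits n)) (h : ℕ) (x : Fin n) :
    lab k n ω'.word h x = labF k n h (wrd ω' h) x := by
  unfold lab labF wrd
  rw [dif_pos x.2]

/-- The coins of the copy `idx`. -/
def coin3 (W k : ℕ) {n W' : ℕ} (ω' : Tape W' (bits n)) (idx : ℕ) : Tape W (bits n) :=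
  fun i j => ⟨ω'.word (2 * (i : ℕ)) ((j : ℕ) * (nL k n + 1) + idx), word_lt _ _ _⟩

theorem coin3_word (W k : ℕ) {n W' : ℕ} (ω' : Tape W' (bits n)) (idx i j : ℕ) (hi : i < W)
    (hj : j < W) :
    ω'.word (2 * i) (j * (nL k n + 1) + idx) = (coin3 W k ω' idx).word i j := by
  unfold coin3 Tape.word
  rw [dif_pos (⟨hi, hj⟩ : i < W ∧ j < W)]

/-! ### The tape -/

theorem idx_lt {k n h j : ℕ} (hh : h < nG k n) (hj : j < cK n) : h * cK n + j < nL k n := by
  unfold nL
  calc h * cK n + j < h * cK n + cK n := by omega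
    _ = (h + 1) * cK n := by ring
    _ ≤ nG k n * cK n := Nat.mul_le_mul_right _ hh

theorem nG_le_nL (k n : ℕ) : nG k n ≤ nL k n := by
  unfold nL
  exact Nat.le_mul_of_pos_right _ (cK_pos n)

theorem big_facts {P g : Algo} {p q n k W' : ℕ} (hk : k = kk p q n) (hW : BigW5 P g p q n W') :
    2 * n + 2 ≤ W' ∧ 2 * nL k n + 2 ≤ W' ∧ 2 * P.W n + 2 ≤ W' ∧
      (P.W n + 1) * (nL k n + 2) ≤ W' := by
  subst hk
  have hbig := hW.2.2.2.2
  have hn1 : 1 ≤ (n + 1) ^ 8 := Nat.one_le_pow _ _ (by omega)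
  have hn2 : n + 1 ≤ (n + 1) ^ 8 := by
    calc n + 1 = (n + 1) ^ 1 := (pow_one _).symm
      _ ≤ (n + 1) ^ 8 := Nat.pow_le_pow_right (by omega) (by norm_num)
  set A := P.W n + g.W n + P.prog.mx + g.prog.mx + p + q + 1000 with hA
  set B := nL (kk p q n) n with hB
  have e1 : (P.W n + 1) * (B + 2) ≤ W' := by
    refine le_trans ?_ hbig
    refine Nat.mul_le_mul_right _ ?_
    calc P.W n + 1 = (P.W n + 1) * 1 := by ring
      _ ≤ 1000 * A * (n + 1) ^ 8 := Nat.mul_le_mul (by omega) hn1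
  have e2 : 2 * (n + 1) * 1 ≤ W' := by
    refine le_trans ?_ hbig
    refine Nat.mul_le_mul ?_ (by omega)
    exact Nat.mul_le_mul (by omega) hn2
  have e3 : 2 * (B + 2) ≤ W' := by
    refine le_trans ?_ hbig
    refine Nat.mul_le_mul_right _ ?_
    calc 2 = 2 * 1 := by ring
      _ ≤ 1000 * A * (n + 1) ^ 8 := Nat.mul_le_mul (by omega) hn1
  have e4 : (2 * P.W n + 2) * 1 ≤ W' := by
    refine le_trans ?_ hbig
    refine Nat.mul_le_mul ?_ (by omega)
    calc 2 * P.W n + 2 = (2 * P.W n + 2) * 1 := by ring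
      _ ≤ 1000 * A * (n + 1) ^ 8 := Nat.mul_le_mul (by omega) hn1
  refine ⟨by omega, by omega, by omega, e1⟩

/-- With probability `≥ 11 / 12` one of the tries hits. -/
theorem prob_miss {P g : Algo} {p q n k W' : ℕ} (hk : k = kk p q n) (hW : BigW5 P g p q n W')
    (T : Finset (Fin n × Fin n × Fin n)) (t1 t2 t3 a b c h0 : ℕ) (hh : h0 * 400 + 399 < nG k n)
    (hhit : 1 / 125 ≤ prob (Hit T t1 t2 t3 a b c)) :
    prob (fun ω' : Tape W' (bits n) =>
      ∀ pl : Fin 400, ¬ Hit T t1 t2 t3 a b c (wrd ω' (h0 * 400 + pl))) ≤ 1 / 12 := by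
  classical
  obtain ⟨f1, f2, f3, f4⟩ := big_facts hk hW
  have hGL := nG_le_nL k n
  let φ : Fin 400 × (Fin n × Bool) → Fin W' × Fin W' := fun p =>
    (⟨2 * (p.2.1 : ℕ) + 1, by have := p.2.1.2; omega⟩,
      ⟨2 * (h0 * 400 + (p.1 : ℕ)) + p.2.2.toNat, by
        have h1 := p.1.2
        have h2 := Bool.toNat_le p.2.2
        omega⟩)
  have hφ : Function.Injective φ := by
    rintro ⟨pl, x, b⟩ ⟨pl', x', b'⟩ h
    simp only [φ, Prod.mk.injEq, Fin.mk.injEq] at h
    obtain ⟨h1, h2⟩ := h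
    have hx : x = x' := Fin.ext (by omega)
    have hb1 := Bool.toNat_le b
    have hb2 := Bool.toNat_le b'
    have hpl : pl = pl' := Fin.ext (by omega)
    have hbb : b.toNat = b'.toNat := by
      have : (pl : ℕ) = pl' := by rw [hpl]
      omega
    have : b = b' := by
      cases b <;> cases b' <;> simp_all
    rw [hx, hpl, this]
  let Q : (Fin n → Fin (2 ^ bits n) × Fin (2 ^ bits n)) → Prop :=
    fun f => ¬ Hit T t1 t2 t3 a b c f
  have hne : Nonempty (Fin (2 ^ bits n)) := ⟨⟨0, by positivity⟩⟩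
  -- step 1: the words of the tape
  have e1 : prob (fun ω' : Tape W' (bits n) =>
      ∀ pl : Fin 400, ¬ Hit T t1 t2 t3 a b c (wrd ω' (h0 * 400 + pl))) =
      prob (fun f : Fin W' × Fin W' → Fin (2 ^ bits n) =>
        ∀ pl : Fin 400, Q (fun x => (f (φ (pl, (x, false))), f (φ (pl, (x, true)))))) := by
    rw [← prob_equiv (Equiv.curry (Fin W') (Fin W') (Fin (2 ^ bits n))).symm
      (fun f : Fin W' × Fin W' → Fin (2 ^ bits n) =>
        ∀ pl : Fin 400, Q (fun x => (f (φ (pl, (x, false))), f (φ (pl, (x, true))))))]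
    congr 1
    funext ω'
    refine propext (forall_congr' (fun pl => ?_))
    have : wrd ω' (h0 * 400 + pl) = fun x : Fin n =>
        ((Equiv.curry (Fin W') (Fin W') (Fin (2 ^ bits n))).symm ω' (φ (pl, (x, false))),
          (Equiv.curry (Fin W') (Fin W') (Fin (2 ^ bits n))).symm ω' (φ (pl, (x, true)))) := by
      funext x
      have hx := x.2
      have hp := pl.2
      refine Prod.ext (Fin.ext ?_) (Fin.ext ?_)
      · show ω'.word _ _ = _
        unfold Tape.word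
        rw [dif_pos (⟨by omega, by omega⟩ : 2 * (x : ℕ) + 1 < W' ∧ 2 * (h0 * 400 + (pl : ℕ)) < W')]
        rfl
      · show ω'.word _ _ = _
        unfold Tape.word
        rw [dif_pos (⟨by omega, by omega⟩ :
          2 * (x : ℕ) + 1 < W' ∧ 2 * (h0 * 400 + (pl : ℕ)) + 1 < W')]
        rfl
    simp only [Q]
    rw [this]
  rw [e1]
  have e2 : prob (fun f : Fin W' × Fin W' → Fin (2 ^ bits n) =>
        ∀ pl : Fin 400, Q (fun x => (f (φ (pl, (x, false))), f (φ (pl, (x, true)))))) =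
      prob (fun f : Fin 400 × (Fin n × Bool) → Fin (2 ^ bits n) =>
        ∀ pl : Fin 400, Q (fun x => (f (pl, (x, false)), f (pl, (x, true))))) :=
    prob_comp_inj φ (fun f : Fin 400 × (Fin n × Bool) → Fin (2 ^ bits n) =>
        ∀ pl : Fin 400, Q (fun x => (f (pl, (x, false)), f (pl, (x, true))))) hφ
  rw [e2]
  let e : (Fin 400 × (Fin n × Bool) → Fin (2 ^ bits n)) ≃
      (Fin 400 → Fin n → Fin (2 ^ bits n) × Fin (2 ^ bits n)) :=
    ⟨fun f pl x => (f (pl, (x, false)), f (pl, (x, true))),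
      fun F p => if p.2.2 then (F p.1 p.2.1).2 else (F p.1 p.2.1).1,
      fun f => by
        funext ⟨pl, x, b⟩
        cases b <;> rfl,
      fun F => by
        funext pl x
        rfl⟩
  have e3 : prob (fun f : Fin 400 × (Fin n × Bool) → Fin (2 ^ bits n) =>
        ∀ pl : Fin 400, Q (fun x => (f (pl, (x, false)), f (pl, (x, true))))) =
      prob (fun F : Fin 400 → Fin n → Fin (2 ^ bits n) × Fin (2 ^ bits n) => ∀ pl, Q (F pl)) :=
    prob_equiv e (fun F : Fin 400 → Fin n → Fin (2 ^ bits n) × Fin (2 ^ bits n) => ∀ pl, Q (F pl))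
  rw [e3, prob_pi_forall Q]
  have h1 : prob Q ≤ 124 / 125 := by
    have : prob Q = 1 - prob (Hit T t1 t2 t3 a b c) := prob_not _
    rw [this]
    linarith
  have h0 := prob_nonneg Q
  calc prob Q ^ 400 ≤ (124 / 125) ^ 400 := pow_le_pow_left₀ h0 h1 400
    _ = ((124 / 125) ^ 100) ^ 4 := by rw [← pow_mul]
    _ ≤ (1 / 2) ^ 4 := by
      refine pow_le_pow_left₀ (by positivity) ?_ 4
      norm_num
    _ ≤ 1 / 12 := by norm_num

/-- The probability that the majority of the copies of the group `h` errs. -/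
theorem prob_group (hchern : P_CHERN) {P g : Algo} {p q n k W' : ℕ} (hk : k = kk p q n)
    (hW : BigW5 P g p q n W') (X : Instance n) (G : SimpleGraph (Fin n)) (T : ℝ)
    (hP : ∀ Y : Instance n, Y.E ≤ G → Decides P Y T) (h : ℕ) (hh : h < nG k n) :
    prob (fun ω' : Tape W' (bits n) => cK n ≤ 2 * Nat.card {j : Fin (cK n) //
      ¬ RightRun P (pull X G (lab k n ω'.word h)) (coin3 (P.W n) k ω' (h * cK n + j))}) ≤
      (24 / 25 : ℝ) ^ cK n := by
  classical
  obtain ⟨f1, f2, f3, f4⟩ := big_facts hk hW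
  have hGL := nG_le_nL k n
  have hne : Nonempty (Fin (2 ^ bits n)) := ⟨⟨0, by positivity⟩⟩
  let φ : (Fin n × Bool) ⊕ (Fin (cK n) × (Fin (P.W n) × Fin (P.W n))) → Fin W' × Fin W' := fun p =>
    match p with
    | Sum.inl p => (⟨2 * (p.1 : ℕ) + 1, by have := p.1.2; omega⟩,
        ⟨2 * h + p.2.toNat, by have := Bool.toNat_le p.2; omega⟩)
    | Sum.inr p => (⟨2 * (p.2.1 : ℕ), by have := p.2.1.2; omega⟩,
        ⟨(p.2.2 : ℕ) * (nL k n + 1) + (h * cK n + (p.1 : ℕ)), by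
          have h1 := p.2.2.2
          have h2 := idx_lt hh p.1.2
          calc (p.2.2 : ℕ) * (nL k n + 1) + (h * cK n + (p.1 : ℕ))
              < (p.2.2 : ℕ) * (nL k n + 1) + (nL k n + 1) := by omega
            _ = ((p.2.2 : ℕ) + 1) * (nL k n + 1) := by ring
            _ ≤ (P.W n + 1) * (nL k n + 2) := Nat.mul_le_mul (by omega) (by omega)
            _ ≤ W' := f4⟩)
  have hφ : Function.Injective φ := by
    intro x x' hx
    rcases x with ⟨x, b⟩ | ⟨j, i, l⟩ <;> rcases x' with ⟨x', b'⟩ | ⟨j', i', l'⟩ <;>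
      simp only [φ, Prod.mk.injEq, Fin.mk.injEq] at hx
    · obtain ⟨h1, h2⟩ := hx
      have e1 : x = x' := Fin.ext (by omega)
      have e2 : b = b' := by
        have : b.toNat = b'.toNat := by omega
        cases b <;> cases b' <;> simp_all
      rw [e1, e2]
    · omega
    · omega
    · obtain ⟨h1, h2⟩ := hx
      have g1 := idx_lt hh j.2
      have g2 := idx_lt hh j'.2
      obtain ⟨h3, h4⟩ := uniq (K := nL k n + 1) (by omega) (by omega) h2
      have e1 : i = i' := Fin.ext (by omega)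
      have e2 : j = j' := Fin.ext (by omega)
      have e3 : l = l' := Fin.ext h3
      rw [e1, e2, e3]
  let R : (Fin n × Bool → Fin (2 ^ bits n)) →
      (Fin (cK n) × (Fin (P.W n) × Fin (P.W n)) → Fin (2 ^ bits n)) → Prop := fun y z =>
    cK n ≤ 2 * Nat.card {j : Fin (cK n) // ¬ RightRun P
      (pull X G (labF k n h (fun x => (y (x, false), y (x, true))))) (fun i l => z (j, (i, l)))}
  have e1 : prob (fun ω' : Tape W' (bits n) => cK n ≤ 2 * Nat.card {j : Fin (cK n) //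
      ¬ RightRun P (pull X G (lab k n ω'.word h)) (coin3 (P.W n) k ω' (h * cK n + j))}) =
      prob (fun f : Fin W' × Fin W' → Fin (2 ^ bits n) =>
        R (fun p => f (φ (Sum.inl p))) (fun p => f (φ (Sum.inr p)))) := by
    rw [← prob_equiv (Equiv.curry (Fin W') (Fin W') (Fin (2 ^ bits n))).symm
      (fun f : Fin W' × Fin W' → Fin (2 ^ bits n) =>
        R (fun p => f (φ (Sum.inl p))) (fun p => f (φ (Sum.inr p))))]
    congr 1
    funext ω'
    have g1 : pull X G (lab k n ω'.word h) = pull X G (labF k n h (fun x : Fin n =>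
        ((Equiv.curry (Fin W') (Fin W') (Fin (2 ^ bits n))).symm ω' (φ (Sum.inl (x, false))),
          (Equiv.curry (Fin W') (Fin W') (Fin (2 ^ bits n))).symm ω' (φ (Sum.inl (x, true)))))) := by
      apply pull_congr
      intro x
      rw [lab_eq]
      congr 1
      funext x
      have hx := x.2
      refine Prod.ext (Fin.ext ?_) (Fin.ext ?_)
      · show ω'.word _ _ = _
        unfold Tape.word
        rw [dif_pos (⟨by omega, by omega⟩ : 2 * (x : ℕ) + 1 < W' ∧ 2 * h < W')]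
        rfl
      · show ω'.word _ _ = _
        unfold Tape.word
        rw [dif_pos (⟨by omega, by omega⟩ : 2 * (x : ℕ) + 1 < W' ∧ 2 * h + 1 < W')]
        rfl
    have g2 : ∀ j : Fin (cK n), coin3 (P.W n) k ω' (h * cK n + j) = fun i l =>
        (Equiv.curry (Fin W') (Fin W') (Fin (2 ^ bits n))).symm ω' (φ (Sum.inr (j, (i, l)))) := by
      intro j
      funext i l
      apply Fin.ext
      show ω'.word _ _ = _
      unfold Tape.word
      rw [dif_pos (⟨(φ (Sum.inr (j, (i, l)))).1.2, (φ (Sum.inr (j, (i, l)))).2.2⟩ :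
        2 * (i : ℕ) < W' ∧ (l : ℕ) * (nL k n + 1) + (h * cK n + (j : ℕ)) < W')]
      rfl
    simp only [R, g1, g2]
  rw [e1]
  have e2 : prob (fun f : Fin W' × Fin W' → Fin (2 ^ bits n) =>
        R (fun p => f (φ (Sum.inl p))) (fun p => f (φ (Sum.inr p)))) =
      prob (fun f : (Fin n × Bool) ⊕ (Fin (cK n) × (Fin (P.W n) × Fin (P.W n))) →
        Fin (2 ^ bits n) => R (fun p => f (Sum.inl p)) (fun p => f (Sum.inr p))) :=
    prob_comp_inj φ (fun f : (Fin n × Bool) ⊕ (Fin (cK n) × (Fin (P.W n) × Fin (P.W n))) →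
        Fin (2 ^ bits n) => R (fun p => f (Sum.inl p)) (fun p => f (Sum.inr p))) hφ
  rw [e2]
  have e3 : prob (fun f : (Fin n × Bool) ⊕ (Fin (cK n) × (Fin (P.W n) × Fin (P.W n))) →
        Fin (2 ^ bits n) => R (fun p => f (Sum.inl p)) (fun p => f (Sum.inr p))) =
      prob (fun p : (Fin n × Bool → Fin (2 ^ bits n)) ×
        (Fin (cK n) × (Fin (P.W n) × Fin (P.W n)) → Fin (2 ^ bits n)) => R p.1 p.2) :=
    prob_equiv (Equiv.sumArrowEquivProdArrow (Fin n × Bool)
      (Fin (cK n) × (Fin (P.W n) × Fin (P.W n))) (Fin (2 ^ bits n)))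
      (fun p : (Fin n × Bool → Fin (2 ^ bits n)) ×
        (Fin (cK n) × (Fin (P.W n) × Fin (P.W n)) → Fin (2 ^ bits n)) => R p.1 p.2)
  rw [e3]
  refine prob_le_of_forall _ _ (fun y => ?_)
  show prob (fun z => R y z) ≤ _
  have e4 : prob (fun z : Fin (cK n) × (Fin (P.W n) × Fin (P.W n)) → Fin (2 ^ bits n) => R y z) =
      prob (fun F : Fin (cK n) → Tape (P.W n) (bits n) => cK n ≤ 2 * Nat.card {j : Fin (cK n) //
        ¬ RightRun P (pull X G (labF k n h (fun x => (y (x, false), y (x, true))))) (F j)}) := by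
    let e : (Fin (cK n) × (Fin (P.W n) × Fin (P.W n)) → Fin (2 ^ bits n)) ≃
        (Fin (cK n) → Tape (P.W n) (bits n)) :=
      ⟨fun f j i l => f (j, (i, l)), fun F p => F p.1 p.2.1 p.2.2, fun f => rfl, fun F => rfl⟩
    exact prob_equiv e (fun F : Fin (cK n) → Tape (P.W n) (bits n) => cK n ≤ 2 * Nat.card
      {j : Fin (cK n) // ¬ RightRun P
        (pull X G (labF k n h (fun x => (y (x, false), y (x, true))))) (F j)})
  rw [e4]
  have hne2 : Nonempty (Tape (P.W n) (bits n)) := ⟨fun _ _ => ⟨0, by positivity⟩⟩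
  refine hchern (Tape (P.W n) (bits n)) (cK n) (fun ρ => ¬ RightRun P
    (pull X G (labF k n h (fun x => (y (x, false), y (x, true))))) ρ) ?_
  have hle : (pull X G (labF k n h (fun x => (y (x, false), y (x, true))))).E ≤ G :=
    fun x y hxy => hxy.1
  have := (hP _ hle).2
  rw [prob_not]
  have h3 : 2 / 3 ≤ prob (fun ρ : Tape (P.W n) (bits n) => RightRun P
      (pull X G (labF k n h (fun x => (y (x, false), y (x, true))))) ρ) := this
  linarith

end Pool.Agent.W2helper22.ETS
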